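import Pool.Agent.N984.QX.Fin2

/-!
# Quantum extremal numbers: two-sided bounds for all `n`, `k`, and when `Q_ex(n,k) ~ C(n,k)`

`Qex n k` is the largest number of `k`-element sets of qubits on which a state of `n` qubits is
maximally mixed. For `n → ∞` and `2k ≤ n` the ratio `Q_ex(n,k) / C(n,k)` tends to `1` if and only
if `n - 2k → ∞`.

* Lower bounds: stabilizer states of the Hermitian self-dual linear codes over the field with four
  elements, averaged over all these codes (each nonzero isotropic vector is in the same number of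
  them, and a set which is not maximally mixed supports at least three nonzero code words).
* Upper bounds: a local obstruction which is uniform in `n`: if the sets `D ∪ B` are maximally
  mixed, `D` fixed, for all but few of the subsets `B` with `r` elements of a set `S` with
  `r + c + 1` elements (`c = n - 2k`), then the purities of the states on `D ∪ S` and
  `D ∪ (S - i)` contradict each other.

Parts of the proof are due to helpers 1, 94, 195, 219, 285, 288, 402, 432, 793, 881, 985, 986, 987.
-/

set_option autoImplicit false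

open Filter Topology Pool.Agent.N984.QX

namespace Pool.Agent.Results.MP_450e1b_mp.AsymptoticProportion

theorem result :
    (∀ n k : ℕ, Even n →
      (1 - ((4 : ℝ) ^ k + (-2) ^ k - 2) / (3 * (2 ^ n + 2))) * (n.choose k) ≤ Qex n k) ∧
    (∀ n k : ℕ, Odd n →
      (1 - ((4 : ℝ) ^ (k + 1) + (-2) ^ (k + 1) - 2) / (3 * (2 ^ (n + 1) + 2))) * (n.choose k) ≤
        Qex n k) ∧
    (∀ k : ℕ, 6 ≤ k → (Qex (2 * k) k : ℝ) ≤ 25 / 28 * (2 * k).choose k) ∧
    (∀ c k : ℕ, 1 ≤ c → 6 * c ≤ k →
      (Qex (2 * k + c) k : ℝ) ≤
        (1 - 1 / ((7 * c + 1).choose (c + 1) + (7 * c + 1) : ℕ)) * (2 * k + c).choose k) ∧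
    ∀ n k : ℕ → ℕ, Tendsto n atTop atTop → (∀ i, 2 * k i ≤ n i) →
      (Tendsto (fun i => (Qex (n i) (k i) : ℝ) / (n i).choose (k i)) atTop (𝓝 1) ↔
        Tendsto (fun i => n i - 2 * k i) atTop atTop) := by
  refine ⟨low.1, low.2, fun k hk => ?_, upc, seq⟩
  have h := up0 k hk
  have h1 : (28 : ℝ) * Qex (2 * k) k ≤ 25 * (2 * k).choose k := by exact_mod_cast h
  linarith

end Pool.Agent.Results.MP_450e1b_mp.AsymptoticProportion
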