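import Pool.Agent.N987.QX.FINZ

/-!
# Quantum extremal numbers: the limiting proportion of maximally mixed sets

For even `n` and `k ≤ n/2` the ratio `Q_ex(n, k) / C(n, k)` is
`∏_{j ≥ 1} (1 - 2^(-(n-2k)-2j)) + o(1)`, uniformly in `k`; for `n = 2k` the constant is `0.6885...`.

* Upper bound (every state, every `c`): for a set `Q` with `k - m` elements on which the state is
  maximally mixed and weights on the complement of `Q`, the pairs `{i, j}` for which the purity of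
  the state on `Q ∪ {i, j}` is minimal have a small total weight (duality of purities and
  Cauchy-Schwarz for the squares of the Pauli expectations); a Lagrangian induction (as in the
  theorem of Motzkin and Straus) bounds the weight of the `m`-element sets `E` such that the purity
  on `Q ∪ E` is minimal.
* Lower bound: exact average over all Hermitian self-dual linear codes over the field with four
  elements, by a recursion `n → n + 2` (neighbours of codes).

Parts of the proof are due to helpers 1, 94, 195, 219, 285, 288, 402, 432, 793, 881, 984, 985, 986.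
-/

set_option autoImplicit false

open Filter Topology Pool.Agent.N984.QX

namespace Pool.Agent.Results.MP_450e1b_mp.LimitingProportion

theorem result :
    (∀ ε : ℝ, 0 < ε → ∃ N : ℕ, ∀ n k : ℕ, Even n → N ≤ n → 2 * k ≤ n →
      |(Qex n k : ℝ) / n.choose k -
        ∏' j : ℕ, (1 - 1 / (2 : ℝ) ^ (n - 2 * k + 2 * (j + 1)))| < ε) ∧
    (∀ c : ℕ, Even c →
      Tendsto (fun k : ℕ => (Qex (2 * k + c) k : ℝ) / (2 * k + c).choose k) atTop
        (𝓝 (∏' j : ℕ, (1 - 1 / (2 : ℝ) ^ (c + 2 * (j + 1)))))) ∧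
    (∀ c : ℕ, Even c → ∀ ε : ℝ, 0 < ε → ∃ K : ℕ, ∀ k ≥ K,
      ((∏' j : ℕ, (1 - 1 / (2 : ℝ) ^ (c + 2 * (j + 1)))) - ε) * (2 * k + (c + 1)).choose k ≤
          (Qex (2 * k + (c + 1)) k : ℝ) ∧
        (Qex (2 * k + (c + 1)) k : ℝ) ≤
          ((∏' j : ℕ, (1 - 1 / (2 : ℝ) ^ (c + 1 + 2 * (j + 1)))) + ε) *
            (2 * k + (c + 1)).choose k) ∧
    (∀ c k m : ℕ, m ≤ k →
      (Qex (2 * k + c) k : ℝ) * (k + c + m).descFactorial m ≤
        (∏ r ∈ Finset.range m,
          (((2 : ℝ) ^ (c + 2 * (r + 1)) - 4) / (2 ^ (c + 2 * (r + 1)) - 1)) ^ r) *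
        ((k + c + m : ℕ) : ℝ) ^ m * (2 * k + c).choose k) ∧
    (∀ c k : ℕ, Even c →
      (∏ j ∈ Finset.range (k / 2),
        (1 - 1 / (2 : ℝ) ^ (c + 2 * (j + 1))) / (1 + 1 / 2 ^ (2 * k + c - 1 - 2 * j))) *
        (2 * k + c).choose k ≤ Qex (2 * k + c) k) ∧
    2 / 3 ≤ (∏' j : ℕ, (1 - 1 / (2 : ℝ) ^ (0 + 2 * (j + 1)))) ∧
    (∏' j : ℕ, (1 - 1 / (2 : ℝ) ^ (0 + 2 * (j + 1)))) < 0.689 := by
  refine ⟨Pool.Agent.N987.QX.uniform_even, Pool.Agent.N987.QX.limit_even, fun c hc ε hε => ?_,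
    fun c k m hm => Pool.Agent.N987.QX.ub Pool.Agent.N195.QX.t_EV0 Pool.Agent.N195.QX.t_WEV
      Pool.Agent.N285.QX.t_DUAL c k m hm, Pool.Agent.N987.QX.lower_explicit,
    Pool.Agent.N987.QX.pinf_zero_ge, Pool.Agent.N987.QX.pinf_zero_lt⟩
  obtain ⟨K1, hK1⟩ := Pool.Agent.N987.QX.lower_odd c hc ε hε
  obtain ⟨K2, hK2⟩ := Pool.Agent.N987.QX.upx (c + 1) ε hε
  exact ⟨max K1 K2, fun k hk => ⟨hK1 k ((le_max_left _ _).trans hk),
    hK2 k ((le_max_right _ _).trans hk)⟩⟩

end Pool.Agent.Results.MP_450e1b_mp.LimitingProportion
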