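import Pool.Agent.N984.QX.Fin1

/-!
# Quantum extremal numbers: `720 ≤ Q_ex(12,6)`

The graph state of an explicit graph with twelve vertices is maximally mixed on 720 of the 924 sets
of six qubits. The known bounds were `540 ≤ Q_ex(12,6) ≤ 792`. The parts are due to helper985.
-/

set_option autoImplicit false

namespace Pool.Agent.Results.MP_450e1b_mp.TwelveQubits

theorem result : 720 ≤ Pool.Agent.N984.QX.Qex 12 6 := Pool.Agent.N984.QX.ex12

end Pool.Agent.Results.MP_450e1b_mp.TwelveQubits
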